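import Pool.Agent.Lib.MP_975af5_gt.Final

set_option autoImplicit false

namespace Pool.Agent.Results.MP_975af5_gt.OrbitsOfConstants

open Pool.Agent.Lib.MP_975af5_gt

/-- For points `x, y` of `ω*`, the constant maps `f_x` and `f_y` lie in the same orbit of
`C_k(ω*, ω*)` (compact-open topology) if and only if `x` and `y` lie in the same orbit of `ω*`. -/
theorem result (x y : OmegaStar) :
    (∃ Φ : C(OmegaStar, OmegaStar) ≃ₜ C(OmegaStar, OmegaStar),
      Φ (ContinuousMap.const OmegaStar x) = ContinuousMap.const OmegaStar y) ↔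
    ∃ g : OmegaStar ≃ₜ OmegaStar, g x = y := by
  constructor
  · rintro ⟨Φ, hΦ⟩
    exact main Φ hΦ
  · rintro ⟨g, hg⟩
    exact converse g hg

end Pool.Agent.Results.MP_975af5_gt.OrbitsOfConstants
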